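import Pool.Agent.Helper75.KS.GoalsA

/-!
# KS: DYC
-/

namespace Pool.Agent.Helper2.KS

open MeasureTheory Filter Topology Set Finset
open Pool.Agent.Helper44.KS Pool.Agent.Helper75.KS

noncomputable section

/-- The step function `1[x ≤ t] - 1[0 ≤ t]`. -/
def fA (x t : ℝ) : ℝ := (if x ≤ t then 1 else 0) - (if 0 ≤ t then 1 else 0)

/-- The step function `(1/τ) 1[y ≤ t < y + τ]`. -/
def fB (τ y t : ℝ) : ℝ := if y ≤ t ∧ t < y + τ then 1 / τ else 0

/-- Indicator of an interval. -/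
def fI (a b t : ℝ) : ℝ := if a ≤ t ∧ t < b then 1 else 0

lemma fI_eq (a b : ℝ) : fI a b = (Set.Ico a b).indicator (fun _ => (1 : ℝ)) := by
  ext t
  simp [fI, Set.indicator_apply]

lemma fI_int (a b : ℝ) : Integrable (fI a b) := by
  rw [fI_eq]
  exact (integrable_indicator_iff measurableSet_Ico).2 (integrableOn_const (by simp) (by simp))

lemma fI_val (a b : ℝ) : ∫ t, fI a b t = max (b - a) 0 := by
  rw [fI_eq, integral_indicator measurableSet_Ico]
  simp

lemma sft_eq (τ x y : ℝ) (hτ : 0 < τ) : sft τ x y = (1 / τ) * max (y + τ - max x y) 0 := by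
  unfold sft
  rcases le_total x y with h | h
  · have h1 : 1 ≤ (y + τ - x) / τ := by rw [le_div_iff₀ hτ]; linarith
    rw [max_eq_right h, min_eq_left h1]
    have h2 : y + τ - y = τ := by ring
    rw [h2, max_eq_left hτ.le, max_eq_right zero_le_one]
    field_simp
  · have h1 : (y + τ - x) / τ ≤ 1 := by rw [div_le_one hτ]; linarith
    rw [max_eq_left h, min_eq_right h1, mul_max_of_nonneg _ _ (by positivity), mul_zero, max_comm]
    congr 1
    field_simp

lemma fAB (τ x y t : ℝ) : fA x t * fB τ y t =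
    (1 / τ) * (fI (max x y) (y + τ) t - fI (max 0 y) (y + τ) t) := by
  unfold fA fB fI
  simp only [max_le_iff]
  by_cases h1 : x ≤ t <;> by_cases h2 : 0 ≤ t <;> by_cases h3 : y ≤ t <;>
    by_cases h4 : t < y + τ <;> simp [h1, h2, h3, h4]

lemma fAA (x t : ℝ) : fA x t ^ 2 = fI x 0 t + fI 0 x t := by
  unfold fA fI
  simp only [← not_le]
  by_cases h1 : x ≤ t <;> by_cases h2 : 0 ≤ t <;> simp [h1, h2]

lemma fBB (τ y t : ℝ) : fB τ y t ^ 2 = (1 / τ) ^ 2 * fI y (y + τ) t := by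
  unfold fB fI
  split_ifs <;> ring

lemma fAB_int (τ x y : ℝ) : Integrable (fun t => fA x t * fB τ y t) := by
  simp only [fAB]
  exact ((fI_int _ _).sub (fI_int _ _)).const_mul _

lemma fAB_val (τ x y : ℝ) (hτ : 0 < τ) : ∫ t, fA x t * fB τ y t = sft τ x y - sft τ 0 y := by
  simp only [fAB]
  rw [integral_const_mul, integral_sub (fI_int _ _) (fI_int _ _), fI_val, fI_val, sft_eq τ x y hτ,
    sft_eq τ 0 y hτ]
  ring

lemma fAA_int (x : ℝ) : Integrable (fun t => fA x t ^ 2) := by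
  simp only [fAA]
  exact (fI_int _ _).add (fI_int _ _)

lemma fAA_val (x : ℝ) : ∫ t, fA x t ^ 2 = |x| := by
  simp only [fAA]
  rw [integral_add (fI_int _ _) (fI_int _ _), fI_val, fI_val]
  rcases le_total x 0 with h | h
  · rw [abs_of_nonpos h, max_eq_left (by linarith), max_eq_right (by linarith)]; ring
  · rw [abs_of_nonneg h, max_eq_right (by linarith), max_eq_left (by linarith)]; ring

lemma fBB_int (τ y : ℝ) : Integrable (fun t => fB τ y t ^ 2) := by
  simp only [fBB]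
  exact (fI_int _ _).const_mul _

lemma fBB_val (τ y : ℝ) (hτ : 0 < τ) : ∫ t, fB τ y t ^ 2 = 1 / τ := by
  simp only [fBB]
  rw [integral_const_mul, fI_val, max_eq_left (by linarith)]
  field_simp
  ring

lemma sft_mem (τ x y : ℝ) : 0 ≤ sft τ x y ∧ sft τ x y ≤ 1 :=
  ⟨le_max_left _ _, max_le zero_le_one (min_le_left _ _)⟩

theorem dyc (h1 : DybStmt) : DycStmt := by
  intro M
  obtain ⟨w, hw, hD⟩ := h1 M
  refine ⟨w, hw, fun x l τ hl hτ => ?_⟩
  have hp : (0 : ℝ) < 2 ^ M := by positivity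
  have i1 : ∀ i j, Integrable (fun t => w i j *
      (fA (x i) t * fB τ (x j) t - fA (x j) t * fB τ (x i) t)) := fun i j =>
    ((fAB_int τ (x i) (x j)).sub (fAB_int τ (x j) (x i))).const_mul _
  have i2 : ∀ i, Integrable (fun t => ∑ j ∈ range (2 ^ M), w i j *
      (fA (x i) t * fB τ (x j) t - fA (x j) t * fB τ (x i) t)) := fun i =>
    integrable_finsetSum _ fun j _ => i1 i j
  have i3 : ∀ i, Integrable (fun t => fA (x i) t ^ 2 + fB τ (x i) t ^ 2) := fun i =>
    (fAA_int (x i)).add (fBB_int τ (x i))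
  -- the integrated inequality
  have hI : ∑ i ∈ range (2 ^ M), ∑ j ∈ range (2 ^ M), w i j *
      ((sft τ (x i) (x j) - sft τ 0 (x j)) - (sft τ (x j) (x i) - sft τ 0 (x i))) ≤
      (l + M / l) * ((∑ i ∈ range (2 ^ M), (|x i| + 1 / τ)) / 2 ^ M) := by
    have hL : ∫ t, ∑ i ∈ range (2 ^ M), ∑ j ∈ range (2 ^ M), w i j *
        (fA (x i) t * fB τ (x j) t - fA (x j) t * fB τ (x i) t) =
        ∑ i ∈ range (2 ^ M), ∑ j ∈ range (2 ^ M), w i j *
      ((sft τ (x i) (x j) - sft τ 0 (x j)) - (sft τ (x j) (x i) - sft τ 0 (x i))) := by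
      rw [integral_finsetSum _ fun i _ => i2 i]
      refine Finset.sum_congr rfl fun i _ => ?_
      rw [integral_finsetSum _ fun j _ => i1 i j]
      refine Finset.sum_congr rfl fun j _ => ?_
      rw [integral_const_mul, integral_sub (fAB_int τ (x i) (x j)) (fAB_int τ (x j) (x i)),
        fAB_val τ _ _ hτ, fAB_val τ _ _ hτ]
    have hR : ∫ t, (l + M / l) * ((∑ i ∈ range (2 ^ M),
        (fA (x i) t ^ 2 + fB τ (x i) t ^ 2)) / 2 ^ M) =
        (l + M / l) * ((∑ i ∈ range (2 ^ M), (|x i| + 1 / τ)) / 2 ^ M) := by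
      rw [integral_const_mul, integral_div,
        integral_finsetSum _ fun i _ => i3 i]
      congr 2
      refine Finset.sum_congr rfl fun i _ => ?_
      rw [integral_add (fAA_int (x i)) (fBB_int τ (x i)), fAA_val, fBB_val τ _ hτ]
    rw [← hL, ← hR]
    refine integral_mono ?_ ?_ fun t => hD (fun i => fA (x i) t) (fun i => fB τ (x i) t) l hl
    · exact integrable_finsetSum _ fun i _ => i2 i
    · exact ((integrable_finsetSum _ fun i _ => i3 i).div_const _).const_mul _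
  have hC := hD (fun _ => 1) (fun i => sft τ 0 (x i)) l hl
  have hlM : 0 ≤ l + M / l := by positivity
  have hC2 : (∑ i ∈ range (2 ^ M), ((1 : ℝ) ^ 2 + sft τ 0 (x i) ^ 2)) / 2 ^ M ≤ 2 := by
    rw [div_le_iff₀ hp]
    calc ∑ i ∈ range (2 ^ M), ((1 : ℝ) ^ 2 + sft τ 0 (x i) ^ 2)
        ≤ ∑ i ∈ range (2 ^ M), (2 : ℝ) := by
          refine Finset.sum_le_sum fun i _ => ?_
          have := sft_mem τ 0 (x i)
          nlinarith [this.1, this.2]
      _ = 2 * 2 ^ M := by simp [mul_comm]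
  have hC3 := hC.trans (mul_le_mul_of_nonneg_left hC2 hlM)
  have hsum : ∑ i ∈ range (2 ^ M), ∑ j ∈ range (2 ^ M),
      w i j * (sft τ (x i) (x j) - sft τ (x j) (x i)) =
      ∑ i ∈ range (2 ^ M), ∑ j ∈ range (2 ^ M), w i j *
      ((sft τ (x i) (x j) - sft τ 0 (x j)) - (sft τ (x j) (x i) - sft τ 0 (x i))) +
      ∑ i ∈ range (2 ^ M), ∑ j ∈ range (2 ^ M), w i j * (1 * sft τ 0 (x j) - 1 * sft τ 0 (x i)) := by
    rw [← Finset.sum_add_distrib]
    refine Finset.sum_congr rfl fun i _ => ?_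
    rw [← Finset.sum_add_distrib]
    refine Finset.sum_congr rfl fun j _ => ?_
    ring
  have hR2 : (∑ i ∈ range (2 ^ M), (|x i| + 1 / τ)) / 2 ^ M =
      (∑ i ∈ range (2 ^ M), |x i|) / 2 ^ M + 1 / τ := by
    rw [Finset.sum_add_distrib, Finset.sum_const, Finset.card_range, add_div, nsmul_eq_mul]
    push_cast
    field_simp
  rw [hR2] at hI
  rw [hsum]
  calc _ ≤ (l + M / l) * ((∑ i ∈ range (2 ^ M), |x i|) / 2 ^ M + 1 / τ) + (l + M / l) * 2 :=
        add_le_add hI hC3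
    _ = _ := by ring

end

end Pool.Agent.Helper2.KS
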