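import Pool.Agent.Helper89.KS.Goals
import Pool.Agent.Helper89.GP.Basic

/-!
# KS: KSY
-/

namespace Pool.Agent.Helper2.KS

open Finset MeasureTheory Filter Topology Pool.Agent.Helper89.GP Pool.Agent.Helper89.KS
open Pool.Agent.Helper44.KS (KSys Filling)
open scoped ENNReal

noncomputable section

lemma nm_linear {n : ℕ} (x : Fin n) (S : ℝ) : IsLinearMap ℝ (nm x S) where
  map_add u v := by
    ext p
    simp only [nm, Pi.add_apply]
    ring
  map_smul a u := by
    ext p
    simp only [nm, Pi.smul_apply, smul_eq_mul]
    ring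

lemma nm_continuous {n : ℕ} (x : Fin n) (S : ℝ) : Continuous (nm x S) := by
  refine continuous_pi fun p => ?_
  unfold nm
  fun_prop

lemma sqrt_bd1 {a S : ℝ} (ha : 0 ≤ a) (hS : 1 ≤ S) (haS : a ≤ S) :
    (√(a * S + 2 * S) + 2 * S) / S ≤ 4 := by
  rw [div_le_iff₀ (by linarith)]
  have h : √(a * S + 2 * S) ≤ 2 * S := by
    apply Real.sqrt_le_iff.2
    constructor
    · linarith
    · nlinarith
  linarith

lemma sqrt_bd2 {a S : ℝ} (ha : 0 ≤ a) (hS : 1 ≤ S) :
    (√(a * S + 2 * S) + 2 * S) / S ≤ 4 + √a := by
  rw [div_le_iff₀ (by linarith)]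
  have h0 : 0 ≤ √a := Real.sqrt_nonneg a
  have h1 : √a * √a = a := Real.mul_self_sqrt ha
  have h : √(a * S + 2 * S) ≤ (2 + √a) * S := by
    apply Real.sqrt_le_iff.2
    constructor
    · positivity
    · have h5 : S ≤ S ^ 2 := by nlinarith
      have h2 : (a + 2) * S ≤ (a + 4) * S ^ 2 :=
        mul_le_mul (by linarith) h5 (by linarith) (by linarith)
      have h3 : (a + 4) * S ^ 2 ≤ ((2 + √a) * S) ^ 2 := by
        have : a + 4 ≤ (2 + √a) ^ 2 := by nlinarith
        nlinarith [sq_nonneg S]
      nlinarith
  nlinarith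

theorem ksy (hMUF : MufStmt) (hORD : OrdStmt) (hMOM : MomStmt)
    (hLCM : LcmStmt) (hCNX : CnxStmt) (hENX : EnxStmt) : KsyStmt := by
  intro c n R x hne h1 hmax hbal
  obtain ⟨S, hSdef⟩ : ∃ S, S = dv R x := ⟨_, rfl⟩
  rw [← hSdef] at h1 hmax ⊢
  have hS0 : 0 < S := by linarith
  have hprob : IsProbabilityMeasure (mu R) := (hMUF n R hne).1
  have hc : Continuous (nm x S) := nm_continuous x S
  have hm : Measurable (nm x S) := hc.measurable
  have hint : ∀ p, Integrable (fun v : Fin n → ℝ => v p) (mu R) := fun p => (hMOM n R p p hne).1.1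
  have hmean : ∀ p, ∫ v, v p ∂mu R = hh R p + 1 := fun p => (hMOM n R p p hne).1.2
  have hint2 : ∀ p, Integrable (fun v : Fin n → ℝ => nm x S v p) (mu R) := fun p =>
    ((hint p).sub (hint x)).div_const S
  have hmap : ∀ p, ∫ e, e p ∂((mu R).map (nm x S)) = (hh R p - hh R x) / S := by
    intro p
    rw [integral_map hm.aemeasurable (measurable_pi_apply p).aestronglyMeasurable]
    have h2 : (fun v : Fin n → ℝ => nm x S v p) = fun v => (v p - v x) / S := rfl
    rw [h2, integral_div, integral_sub (hint p) (hint x), hmean, hmean]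
    ring
  have hdev : ∀ p, ∫ d, |d p - ∫ e, e p ∂((mu R).map (nm x S))| ∂((mu R).map (nm x S)) ≤
      (√(|(hh R p - hh R x) / S| * S + 2 * S) + 2 * S) / S := by
    intro p
    rw [hmap p, integral_map hm.aemeasurable
      (((measurable_pi_apply p).sub_const _).abs).aestronglyMeasurable]
    have h2 : (fun v : Fin n → ℝ => |nm x S v p - (hh R p - hh R x) / S|) =
        fun v => |v p - v x - (hh R p - hh R x)| / S := by
      ext v
      rw [nm, ← sub_div, abs_div, abs_of_pos hS0]
    rw [h2, integral_div]
    apply div_le_div_of_nonneg_right _ hS0.le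
    have h3 := (hMOM n R p x hne).2
    have h4 : |(hh R p - hh R x) / S| * S = |hh R p - hh R x| := by
      rw [abs_div, abs_of_pos hS0]; field_simp
    rw [h4]
    have hp := hmax p
    have hx := hmax x
    have h5 : (Ex R fun σ => |(po σ p : ℝ) - po σ x|) ≤ |hh R p - hh R x| + 2 * S := by
      linarith [h3.2]
    have h6 := Real.sqrt_le_sqrt h5
    linarith [h3.1]
  have hlt : ∀ p q, ((mu R).map (nm x S)).real {d | d p < d q} =
      Pr R fun σ => po σ p < po σ q := by
    intro p q
    rw [map_measureReal_apply hm (measurableSet_lt (measurable_pi_apply p) (measurable_pi_apply q)),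
      ← (hORD n R hne).2.1 p q]
    congr 1
    ext v
    simp only [Set.mem_preimage, Set.mem_ofPred_eq, nm]
    rw [div_lt_div_iff_of_pos_right hS0]
    constructor <;> intro h <;> linarith
  refine ⟨{
    n := n
    μ := (mu R).map (nm x S)
    S := S
    x := x
    prob := Measure.isProbabilityMeasure_map hm.aemeasurable
    one_le := h1
    int := ?_
    ref := ?_
    noties := ?_
    lc := ?_
    m1 := ?_
    m2 := ?_
    cnt := ?_
    energy := ?_
    nobal := ?_ }, rfl, ?_⟩
  · intro p
    rw [integrable_map_measure (measurable_pi_apply p).aestronglyMeasurable hm.aemeasurable]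
    exact hint2 p
  · rw [ae_map_iff hm.aemeasurable (measurableSet_eq_fun (measurable_pi_apply x) measurable_const)]
    exact Eventually.of_forall fun v => by simp [nm]
  · intro p q hpq
    have hms : MeasurableSet {d : Fin n → ℝ | d p ≠ d q} :=
      (measurableSet_eq_fun (measurable_pi_apply p) (measurable_pi_apply q)).compl
    rw [ae_map_iff hm.aemeasurable hms]
    filter_upwards [(hORD n R hne).1] with v hv h
    apply hv p q hpq
    simp only [nm] at h
    rw [div_left_inj' hS0.ne'] at h
    linarith
  · intro A B C t hA hB hC cA cB ht0 ht1 hABC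
    rw [map_measureReal_apply hm hA.measurableSet, map_measureReal_apply hm hB.measurableSet,
      map_measureReal_apply hm hC.measurableSet]
    refine hLCM n R hne _ _ _ t (hA.preimage hc) (hB.preimage hc) (hC.preimage hc)
      (cA.is_linear_preimage (nm_linear x S)) (cB.is_linear_preimage (nm_linear x S)) ht0 ht1 ?_
    intro u hu v hv
    have := hABC _ hu _ hv
    rw [Set.mem_preimage, (nm_linear x S).map_add, (nm_linear x S).map_smul,
      (nm_linear x S).map_smul]
    exact this
  · intro p hp
    refine (hdev p).trans ?_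
    rw [hmap p] at hp
    exact sqrt_bd1 (abs_nonneg _) h1 hp
  · intro p
    refine (hdev p).trans ?_
    rw [hmap p]
    exact sqrt_bd2 (abs_nonneg _) h1
  · intro u
    have h2 := hCNX n R S hne h1 hmax (hh R x + u * S)
    refine le_trans (le_of_eq ?_) h2
    congr 1
    apply Fintype.card_congr
    apply Equiv.subtypeEquivRight
    intro p
    rw [hmap p, le_div_iff₀ hS0, div_lt_iff₀ hS0]
    constructor
    · rintro ⟨h3, h4⟩
      constructor <;> nlinarith
    · rintro ⟨h3, h4⟩
      constructor <;> nlinarith
  · simp only [hlt]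
    rw [hSdef]
    exact hENX n R x hne
  · intro p q hpq
    rw [hlt]
    exact hbal p q hpq
  · intro G ε hG
    have hmeas : MeasurableSet {d : Fin n → ℝ | ε < |(∑ p, G (d p)) / S - ∫ y, G y|} := by
      apply measurableSet_lt measurable_const
      apply Continuous.measurable
      exact (((continuous_finsetSum _ fun p _ => hG.comp (continuous_apply p)).div_const
        S).sub continuous_const).abs
    exact map_measureReal_apply hm hmeas

end

end Pool.Agent.Helper2.KS
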